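import Pool.Agent.Helper62.DSH.StA

/-!
# Project DSH, module PTW: the pointwise Bochner identity
-/

set_option autoImplicit false

open Set Filter Topology MeasureTheory
open Helper62.LH Helper62.DSH
open scoped ContDiff ENNReal

noncomputable section

namespace Pool.Agent.Helper51.DSH

/-! ## The algebra -/

lemma s3 {n : ℕ} (H : Fin n → Fin n → Fin n → ℝ) (hH : ∀ a b c, H a b c = -H a c b)
    (d : Fin n → ℝ) : ∑ b, ∑ c, H b b c * d c = -∑ b, (∑ c, H c b c) * d b := by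
  rw [Finset.sum_comm, ← Finset.sum_neg_distrib]
  refine Finset.sum_congr rfl fun b _ => ?_
  rw [Finset.sum_mul, ← Finset.sum_neg_distrib]
  refine Finset.sum_congr rfl fun c _ => ?_
  rw [hH c c b]
  ring

lemma alg {n : ℕ} (H : Fin n → Fin n → Fin n → ℝ) (hH : ∀ a b c, H a b c = -H a c b)
    (φ : Fin n → ℝ) (ψ hs : Fin n → Fin n → ℝ) (hψ : ∀ a b, ψ a b = hs a b + ∑ c, H a b c * φ c)
    (aa : Fin n → Fin n → ℝ) (ab : Fin n → Fin n → Fin n → ℝ)
    (ac bb : Fin n → Fin n → Fin n → Fin n → ℝ) (w : Fin n → Fin n → ℝ)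
    (dA : Fin n → ℝ) (dB : Fin n → ℝ)
    (hr : ∀ a b, ac a b b a - ac a b a b = (∑ d, (H a b d - H b a d) * ab a b d) - w a b) :
    ∑ b, ((∑ c, (ac b c c b + (∑ d, H b c d * ab b d c) - ψ b c * aa b c - φ c * ab b c b -
        φ c * ∑ d, H b c d * aa b d)) + (dB b + ∑ c, H b b c * dA c) -
        (∑ a, ((bb a b b a + ∑ c, H b a c * ab c b a) +
          (ac a b a b + ∑ c, H b b c * ab a c a))) +
        ((∑ c, H c b c) - φ b) * (dA b - ∑ a, ab a b a)) =
      (∑ b, (dB b - φ b * dA b)) - (∑ a, ∑ b, bb a b b a) - (∑ a, ∑ b, hs a b * aa a b) -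
        ∑ a, ∑ b, w a b := by
  have e1 : ∑ b, ∑ c, H b b c * dA c = -∑ b, (∑ c, H c b c) * dA b := s3 H hH dA
  have e2 : ∑ b, ∑ a, ∑ c, H b b c * ab a c a = -∑ b, (∑ c, H c b c) * ∑ a, ab a b a := by
    have := s3 H hH (fun b => ∑ a, ab a b a)
    rw [← this]
    refine Finset.sum_congr rfl fun b _ => ?_
    rw [Finset.sum_comm]
    refine Finset.sum_congr rfl fun c _ => ?_
    rw [Finset.mul_sum]
  have e3 : ∑ b, ∑ a, bb a b b a = ∑ a, ∑ b, bb a b b a := Finset.sum_comm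
  have e4 : ∑ b, ∑ a, ac a b a b = ∑ a, ∑ b, ac a b a b := Finset.sum_comm
  have e5 : ∑ b, ∑ c, φ c * ab b c b = ∑ b, φ b * ∑ a, ab a b a := by
    rw [Finset.sum_comm]
    refine Finset.sum_congr rfl fun b _ => ?_
    rw [Finset.mul_sum]
  have e6 : ∑ a, ∑ b, ac a b b a - ∑ a, ∑ b, ac a b a b =
      (∑ a, ∑ b, ∑ d, H a b d * ab a b d) - (∑ a, ∑ b, ∑ d, H b a d * ab a b d) -
        ∑ a, ∑ b, w a b := by
    rw [← Finset.sum_sub_distrib, ← Finset.sum_sub_distrib, ← Finset.sum_sub_distrib]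
    refine Finset.sum_congr rfl fun a _ => ?_
    rw [← Finset.sum_sub_distrib, ← Finset.sum_sub_distrib, ← Finset.sum_sub_distrib]
    refine Finset.sum_congr rfl fun b _ => ?_
    rw [hr, ← Finset.sum_sub_distrib]
    congr 1
    refine Finset.sum_congr rfl fun d _ => ?_
    ring
  have e7 : ∑ b, ∑ c, ∑ d, H b c d * ab b d c = -∑ a, ∑ b, ∑ d, H a b d * ab a b d := by
    rw [← Finset.sum_neg_distrib]
    refine Finset.sum_congr rfl fun a _ => ?_
    rw [Finset.sum_comm, ← Finset.sum_neg_distrib]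
    refine Finset.sum_congr rfl fun b _ => ?_
    rw [← Finset.sum_neg_distrib]
    refine Finset.sum_congr rfl fun c _ => ?_
    rw [hH a c b]
    ring
  have e8 : ∑ b, ∑ a, ∑ c, H b a c * ab c b a = -∑ a, ∑ b, ∑ d, H b a d * ab a b d := by
    rw [Finset.sum_comm (γ := Fin n) (f := fun a b => ∑ d, H b a d * ab a b d),
      ← Finset.sum_neg_distrib]
    refine Finset.sum_congr rfl fun b _ => ?_
    rw [Finset.sum_comm, ← Finset.sum_neg_distrib]
    refine Finset.sum_congr rfl fun a _ => ?_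
    rw [← Finset.sum_neg_distrib]
    refine Finset.sum_congr rfl fun c _ => ?_
    rw [hH b c a]
    ring
  have e9 : (∑ b, ∑ c, ψ b c * aa b c) + (∑ b, ∑ c, φ c * ∑ d, H b c d * aa b d) =
      ∑ a, ∑ b, hs a b * aa a b := by
    rw [← Finset.sum_add_distrib]
    refine Finset.sum_congr rfl fun b _ => ?_
    have : ∑ c, φ c * ∑ d, H b c d * aa b d = -∑ c, (∑ d, H b c d * φ d) * aa b c := by
      simp only [Finset.mul_sum, Finset.sum_mul]
      rw [Finset.sum_comm, ← Finset.sum_neg_distrib]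
      refine Finset.sum_congr rfl fun c _ => ?_
      rw [← Finset.sum_neg_distrib]
      refine Finset.sum_congr rfl fun d _ => ?_
      rw [hH b d c]
      ring
    rw [this, ← sub_eq_add_neg, ← Finset.sum_sub_distrib]
    refine Finset.sum_congr rfl fun c _ => ?_
    rw [hψ]
    ring
  simp only [sub_mul, mul_sub, Finset.sum_add_distrib, Finset.sum_sub_distrib]
  linarith

/-! ## The bilinear form -/

lemma ipt_comm {n j : ℕ} (s t : Tn n j) : ipt s t = ipt t s := by
  unfold ipt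
  congr 1
  exact Finset.sum_congr rfl fun I _ => mul_comm _ _

lemma ipt_add_left {n j : ℕ} (s s' t : Tn n j) : ipt (s + s') t = ipt s t + ipt s' t := by
  unfold ipt
  rw [← add_div, ← Finset.sum_add_distrib]
  congr 1
  refine Finset.sum_congr rfl fun I _ => ?_
  rw [Pi.add_apply]
  ring

lemma ipt_smul_left {n j : ℕ} (c : ℝ) (s t : Tn n j) : ipt (c • s) t = c * ipt s t := by
  unfold ipt
  rw [← mul_div_assoc, Finset.mul_sum]
  congr 1
  refine Finset.sum_congr rfl fun I _ => ?_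
  rw [Pi.smul_apply, smul_eq_mul]
  ring

/-- `ipt · t` as a linear map -/
def iptL {n j : ℕ} (t : Tn n j) : Tn n j →ₗ[ℝ] ℝ where
  toFun s := ipt s t
  map_add' s s' := ipt_add_left s s' t
  map_smul' c s := ipt_smul_left c s t

lemma ipt_sub_left {n j : ℕ} (s s' t : Tn n j) : ipt (s - s') t = ipt s t - ipt s' t :=
  map_sub (iptL t) s s'

lemma ipt_sum_left {n j : ℕ} {ι : Type*} (S : Finset ι) (s : ι → Tn n j) (t : Tn n j) :
    ipt (∑ i ∈ S, s i) t = ∑ i ∈ S, ipt (s i) t :=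
  map_sum (iptL t) s S

lemma ipt_add_right {n j : ℕ} (s t t' : Tn n j) : ipt s (t + t') = ipt s t + ipt s t' := by
  rw [ipt_comm, ipt_add_left, ipt_comm t, ipt_comm t']

lemma ipt_sub_right {n j : ℕ} (s t t' : Tn n j) : ipt s (t - t') = ipt s t - ipt s t' := by
  rw [ipt_comm, ipt_sub_left, ipt_comm t, ipt_comm t']

lemma ipt_smul_right {n j : ℕ} (c : ℝ) (s t : Tn n j) : ipt s (c • t) = c * ipt s t := by
  rw [ipt_comm, ipt_smul_left, ipt_comm t]

lemma ipt_sum_right {n j : ℕ} {ι : Type*} (S : Finset ι) (s : Tn n j) (t : ι → Tn n j) :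
    ipt s (∑ i ∈ S, t i) = ∑ i ∈ S, ipt s (t i) := by
  rw [ipt_comm, ipt_sum_left]
  exact Finset.sum_congr rfl fun i _ => ipt_comm _ _

lemma sm_ipt {n j : ℕ} {s t : E n → Tn n j} (hs : ContDiff ℝ ∞ s) (ht : ContDiff ℝ ∞ t) :
    ContDiff ℝ ∞ (fun y => ipt (s y) (t y)) := by
  unfold ipt
  exact (ContDiff.sum fun I _ => (contDiff_pi.1 hs I).mul (contDiff_pi.1 ht I)).div_const _

lemma sm_ct {n j : ℕ} (b : Fin n) {s : E n → Tn n (j + 1)} (hs : ContDiff ℝ ∞ s) :
    ContDiff ℝ ∞ (fun y => ct b (s y)) :=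
  contDiff_pi.2 fun K => contDiff_pi.1 hs (Fin.cons b K)

lemma ct_sub {n j : ℕ} (b : Fin n) (s t : Tn n (j + 1)) : ct b (s - t) = ct b s - ct b t := rfl

lemma ct_sum {n j : ℕ} {ι : Type*} (S : Finset ι) (b : Fin n) (s : ι → Tn n (j + 1)) :
    ct b (∑ i ∈ S, s i) = ∑ i ∈ S, ct b (s i) := by
  funext K
  simp only [ct, Finset.sum_apply]

lemma ct_smul {n j : ℕ} (b : Fin n) (c : ℝ) (s : Tn n (j + 1)) : ct b (c • s) = c • ct b s := rfl

/-! ## Covariant derivatives of sums and differences -/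

lemma cv_sum (hDer : TDer) {n j : ℕ} {g : E n → Bl n} {Γ : E n → Bm n} {F : Fin n → E n → E n}
    {G : E n → Fin n → Fin n → Fin n → ℝ} (hF : Frm g Γ F G) {M : ℕ}
    (u : Fin M → E n → Tn n j) (hu : ∀ i, ContDiff ℝ ∞ (u i)) (x : E n) (a : Fin n) :
    cv F G (fun y => ∑ i, u i y) x a = ∑ i, cv F G (u i) x a := by
  have h := ((hDer n j g Γ F G hF).2.2.2.2.2.1 M (fun _ => 1) u hu x).1 a
  simpa only [one_smul] using h

lemma cv_sub (hDer : TDer) {n j : ℕ} {g : E n → Bl n} {Γ : E n → Bm n} {F : Fin n → E n → E n}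
    {G : E n → Fin n → Fin n → Fin n → ℝ} (hF : Frm g Γ F G)
    (u v : E n → Tn n j) (hu : ContDiff ℝ ∞ u) (hv : ContDiff ℝ ∞ v) (x : E n) (a : Fin n) :
    cv F G (fun y => u y - v y) x a = cv F G u x a - cv F G v x a := by
  have h := ((hDer n j g Γ F G hF).2.2.2.2.2.1 2 ![1, -1] ![u, v]
    (by intro i; fin_cases i; exacts [hu, hv]) x).1 a
  simp only [Fin.sum_univ_two, Matrix.cons_val_zero, Matrix.cons_val_one, one_smul, neg_smul,
    ← sub_eq_add_neg] at h
  exact h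

/-! ## The main statement -/

lemma dlF_smooth (hDer : TDer) {n m : ℕ} {g : E n → Bl n} {Γ : E n → Bm n}
    {F : Fin n → E n → E n} {G : E n → Fin n → Fin n → Fin n → ℝ} (hF : Frm g Γ F G)
    {f : E n → ℝ} {u : E n → Tn n (m + 1)} (hf : ContDiff ℝ ∞ f) (hu : ContDiff ℝ ∞ u) :
    ContDiff ℝ ∞ (dlF F G f u) :=
  (hDer n m g Γ F G hF).2.1 f u hf hu

/-- smoothness of the directional derivatives of a function -/
lemma sm_dir {n : ℕ} {f : E n → ℝ} {F : E n → E n} (hf : ContDiff ℝ ∞ f)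
    (hF : ContDiff ℝ ∞ F) : ContDiff ℝ ∞ (fun y => fderiv ℝ f y (F y)) :=
  (hf.fderiv_right (m := ∞) (by norm_num)).clm_apply hF

/-- the second derivatives of `f` in the frame -/
lemma hess {n : ℕ} {g : E n → Bl n} {Γ : E n → Bm n}
    {F : Fin n → E n → E n} {G : E n → Fin n → Fin n → Fin n → ℝ} (hF : Frm g Γ F G)
    {f : E n → ℝ} (hf : ContDiff ℝ ∞ f) (x : E n) (a b : Fin n) :
    fderiv ℝ (fun y => fderiv ℝ f y (F b y)) x (F a x) =
      Hs Γ f x (F a x) (F b x) + ∑ c, G x a b c * fderiv ℝ f x (F c x) := by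
  have h1 : DifferentiableAt ℝ (fderiv ℝ f) x :=
    ((hf.fderiv_right (m := ∞) (by norm_num)).differentiable (by norm_num)) x
  have h2 : DifferentiableAt ℝ (F b) x := ((hF.smF b).differentiable (by norm_num)) x
  rw [fderiv_clm_apply h1 h2]
  have h3 := congrArg (fderiv ℝ f x) (hF.cn x a b)
  rw [map_add, map_sum] at h3
  simp only [map_smul, smul_eq_mul] at h3
  simp only [_root_.add_apply, ContinuousLinearMap.comp_apply,
    ContinuousLinearMap.flip_apply, Hs]
  rw [← h3]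
  ring

/-- the covariant derivative of `δ u` -/
lemma cv_dl (hDer : TDer) (hLbz : TLbz) {n m : ℕ} {g : E n → Bl n} {Γ : E n → Bm n}
    {F : Fin n → E n → E n} {G : E n → Fin n → Fin n → Fin n → ℝ} (hF : Frm g Γ F G)
    {f : E n → ℝ} {u : E n → Tn n (m + 1)} (hf : ContDiff ℝ ∞ f) (hu : ContDiff ℝ ∞ u)
    (x : E n) (a : Fin n) :
    cv F G (dlF F G f u) x a =
      ∑ b, (ct b (cv F G (fun y => cv F G u y b) x a) + (∑ c, G x a b c • ct c (cv F G u x b)) -
        fderiv ℝ (fun y => fderiv ℝ f y (F b y)) x (F a x) • ct b (u x) -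
        fderiv ℝ f x (F b x) • ct b (cv F G u x a) -
        fderiv ℝ f x (F b x) • ∑ c, G x a b c • ct c (u x)) := by
  have hV : ∀ b, ContDiff ℝ ∞ (fun y => cv F G u y b) := ((hDer n (m + 1) g Γ F G hF).1 u hu).1
  have hφ : ∀ b, ContDiff ℝ ∞ (fun y => fderiv ℝ f y (F b y)) := fun b => sm_dir hf (hF.smF b)
  have e1 : cv F G (dlF F G f u) x a = ∑ b, cv F G (fun y => ct b (cv F G u y b) -
      fderiv ℝ f y (F b y) • ct b (u y)) x a :=
    cv_sum hDer hF (fun b y => ct b (cv F G u y b) - fderiv ℝ f y (F b y) • ct b (u y))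
      (fun b => (sm_ct b (hV b)).sub ((hφ b).smul (sm_ct b hu))) x a
  rw [e1]
  refine Finset.sum_congr rfl fun b _ => ?_
  rw [cv_sub hDer hF (fun y => ct b (cv F G u y b)) (fun y => fderiv ℝ f y (F b y) • ct b (u y))
      (sm_ct b (hV b)) ((hφ b).smul (sm_ct b hu)),
    (hLbz n m g Γ F G hF).2.2.2 (fun y => cv F G u y b) (hV b) x a b,
    ((hLbz n m g Γ F G hF).2.1 (fun y => fderiv ℝ f y (F b y)) (fun y => ct b (u y)) (hφ b)
      (sm_ct b hu) x).1 a,
    (hLbz n m g Γ F G hF).2.2.2 u hu x a b, smul_add]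
  abel

theorem hPtw (hDer : TDer) (hLbz : TLbz) (hRci : TRci) : TPtw := by
  intro n m g Γ F G hg hΓ hF f u hf hu x
  have hV : ∀ b, ContDiff ℝ ∞ (fun y => cv F G u y b) := ((hDer n (m + 1) g Γ F G hF).1 u hu).1
  have hδ : ContDiff ℝ ∞ (dlF F G f u) := dlF_smooth hDer hF hf hu
  -- the derivative of the vector field
  have hY : ∀ b, fderiv ℝ (fun y => YB F G f u y b) x (F b x) =
      (ipt (cv F G (dlF F G f u) x b) (ct b (u x)) + ipt (dlF F G f u x)
        (ct b (cv F G u x b) + ∑ c, G x b b c • ct c (u x))) -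
      ∑ a, (ipt (ct a (cv F G u x b) + ∑ c, G x b a c • ct c (u x)) (ct b (cv F G u x a)) +
        ipt (ct a (u x)) (ct b (cv F G (fun y => cv F G u y a) x b) +
          ∑ c, G x b b c • ct c (cv F G u x a))) := by
    intro b
    have d1 : Differentiable ℝ (fun y => ipt (dlF F G f u y) (ct b (u y))) :=
      (sm_ipt hδ (sm_ct b hu)).differentiable (by norm_num)
    have d2 : ∀ a, Differentiable ℝ (fun y => ipt (ct a (u y)) (ct b (cv F G u y a))) :=
      fun a => (sm_ipt (sm_ct a hu) (sm_ct b (hV a))).differentiable (by norm_num)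
    have e1 : (fun y => YB F G f u y b) = (fun y => ipt (dlF F G f u y) (ct b (u y))) -
        ∑ a, (fun y => ipt (ct a (u y)) (ct b (cv F G u y a))) := by
      funext y
      simp only [YB, Pi.sub_apply, Finset.sum_apply]
    rw [e1, fderiv_sub (d1 x) (DifferentiableAt.sum fun a _ => (d2 a) x),
      fderiv_sum (fun a _ => (d2 a) x), _root_.sub_apply,
      _root_.sum_apply,
      (hLbz n m g Γ F G hF).1 _ _ hδ (sm_ct b hu) x b,
      (hLbz n m g Γ F G hF).2.2.2 u hu x b b]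
    congr 1
    refine Finset.sum_congr rfl fun a _ => ?_
    rw [(hLbz n m g Γ F G hF).1 _ _ (sm_ct a hu) (sm_ct b (hV a)) x b,
      (hLbz n m g Γ F G hF).2.2.2 u hu x b a,
      (hLbz n m g Γ F G hF).2.2.2 (fun y => cv F G u y a) (hV a) x b b]
  have key := alg (G x) (hF.anti x) (fun b => fderiv ℝ f x (F b x))
    (fun a b => fderiv ℝ (fun y => fderiv ℝ f y (F b y)) x (F a x))
    (fun a b => Hs Γ f x (F a x) (F b x)) (fun a b => hess hF hf x a b)
    (fun a b => ipt (ct a (u x)) (ct b (u x)))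
    (fun a b c => ipt (ct a (u x)) (ct b (cv F G u x c)))
    (fun a b c d => ipt (ct a (u x)) (ct b (cv F G (fun y => cv F G u y c) x d)))
    (fun a b c d => ipt (ct a (cv F G u x b)) (ct c (cv F G u x d)))
    (fun a b => ipt (ct a (u x)) (ct b (rho (Rc g Γ F x a b) (u x))))
    (fun b => ipt (dlF F G f u x) (ct b (u x)))
    (fun b => ipt (dlF F G f u x) (ct b (cv F G u x b)))
    (by
      intro a b
      have h := hRci n (m + 1) g Γ F G hg hΓ hF u hu x a b
      have h2 := congrArg (fun t => ipt (ct a (u x)) (ct b t)) h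
      simp only [ct_sub, ct_sum, ct_smul, ipt_sub_right, ipt_sum_right, ipt_smul_right] at h2
      exact h2)
  have hq : q2 (dlF F G f u x) = ∑ b, (ipt (dlF F G f u x) (ct b (cv F G u x b)) -
      fderiv ℝ f x (F b x) * ipt (dlF F G f u x) (ct b (u x))) := by
    unfold q2
    conv_lhs => rw [show ipt (dlF F G f u x) (dlF F G f u x) = ipt (dlF F G f u x)
      (∑ a, (ct a (cv F G u x a) - fderiv ℝ f x (F a x) • ct a (u x))) from rfl]
    simp only [ipt_sum_right, ipt_sub_right, ipt_smul_right]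
  have hw : Wz (Rc g Γ F x) (u x) =
      ∑ a, ∑ b, ipt (ct a (u x)) (ct b (rho (Rc g Γ F x a b) (u x))) := rfl
  rw [hq, hw, ← key]
  refine Finset.sum_congr rfl fun b _ => ?_
  rw [hY b, ipt_comm (cv F G (dlF F G f u) x b) (ct b (u x)), cv_dl hDer hLbz hF hf hu x b]
  simp only [YB, ipt_sum_right, ipt_add_right, ipt_sub_right, ipt_smul_right, ipt_add_left,
    ipt_sum_left, ipt_smul_left]

end Pool.Agent.Helper51.DSH
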